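import Pool.Agent.L0h56.HS.Stm

/-!
# Project HS (helper56): the module DSM, by helper60

Counting the pairs `(x, z)` with `q(a,z) = t = q(x,z)`.
-/

set_option autoImplicit false
set_option linter.all false

namespace Pool.Agent.L0h60.HS

open Finset Pool.Agent.H315R3.ETC Pool.Agent.L0h56.HS

theorem t_DSM : S_DSM := by
  classical
  intro S h hfin N hN t a b ht hab
  haveI : Fintype S.G := Fintype.ofFinite _
  have nc : ∀ p : S.G → Prop, {d | p d}.ncard = (univ.filter p).card := by
    intro p
    rw [Set.ncard_eq_toFinset_card']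
    congr 1
    ext d
    simp
  have hne : ∀ u v : S.G, S.q u v = t → u ≠ 1 := by
    rintro u v huv rfl
    apply ht
    rw [← huv, h.qs2, q_one h]
  have hfs : {x : S.G | ∃ y, S.q x y = t}.Finite := Set.toFinite _
  rw [finsum_mem_eq_finite_toFinset_sum _ hfs]
  obtain ⟨T, hT⟩ : ∃ T : Finset S.G, T = univ.filter (fun z => S.q a z = t) := ⟨_, rfl⟩
  -- the fibres over `x`
  have h1 : ∀ x ∈ hfs.toFinset, {d : S.G | S.q a d = S.zero ∧ S.q x d = S.zero}.ncard =
      (T.filter (fun z => S.q x z = t)).card := by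
    intro x hx
    obtain ⟨y, hy⟩ := (Set.Finite.mem_toFinset _).1 hx
    obtain ⟨z, hz1, hz2⟩ := h.qs4 a b x y (hab.trans hy.symm)
    rw [hab] at hz1
    rw [hy] at hz2
    have e : {z : S.G | S.q a z = t ∧ S.q x z = t} =
        (fun d => d * z) '' {d : S.G | S.q a d = S.zero ∧ S.q x d = S.zero} := by
      ext u
      constructor
      · rintro ⟨hu1, hu2⟩
        exact ⟨u * z, ⟨(h.qs3 _ _ _).1 (hu1.trans hz1), (h.qs3 _ _ _).1 (hu2.trans hz2)⟩,
          mul_cancel h u z⟩
      · rintro ⟨d, ⟨hd1, hd2⟩, rfl⟩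
        exact ⟨(q_shift h z hd1).trans hz1.symm, (q_shift h z hd2).trans hz2.symm⟩
    have e2 := Set.ncard_image_of_injective {d : S.G | S.q a d = S.zero ∧ S.q x d = S.zero}
      (mul_left_injective z)
    rw [← e2, ← e, nc, hT, filter_filter]
    refine congrArg card ?_
    ext w
    simp only [mem_filter]
  rw [sum_congr rfl h1]
  -- the fibres over `z`
  have h2 : ∀ u v : S.G, S.q u v = t → (univ.filter (fun z => S.q u z = t)).card = N := by
    intro u v huv
    have e : {z : S.G | S.q u z = t} = (fun d => d * v) '' {d : S.G | S.q u d = S.zero} := by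
      ext w
      constructor
      · intro hw
        exact ⟨w * v, (h.qs3 _ _ _).1 (Eq.trans hw huv.symm), mul_cancel h w v⟩
      · rintro ⟨d, hd, rfl⟩
        exact (q_shift h v hd).trans huv
    rw [← nc, e, Set.ncard_image_of_injective _ (mul_left_injective v)]
    exact hN u (hne u v huv)
  have h3 := sum_card_bipartiteAbove_eq_sum_card_bipartiteBelow (s := hfs.toFinset) (t := T)
    (fun x z => S.q x z = t)
  unfold bipartiteAbove bipartiteBelow at h3
  rw [h3]
  have h4 : ∀ z ∈ T, (hfs.toFinset.filter (fun x => S.q x z = t)).card = N := by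
    intro z hz
    rw [hT, mem_filter] at hz
    have e : hfs.toFinset.filter (fun x => S.q x z = t) = univ.filter (fun x => S.q z x = t) := by
      ext x
      rw [mem_filter, mem_filter, Set.Finite.mem_toFinset, h.qs2 x z]
      constructor
      · exact fun hx => ⟨mem_univ _, hx.2⟩
      · exact fun hx => ⟨⟨z, by rw [h.qs2]; exact hx.2⟩, hx.2⟩
    rw [e]
    exact h2 z a (by rw [h.qs2]; exact hz.2)
  rw [sum_congr rfl h4, sum_const, hT, h2 a b hab, smul_eq_mul, sq]

end Pool.Agent.L0h60.HS
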