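import Pool.Agent.L0h56.HS.Stm

/-!
# Project HS (helper56): the module FLD, by helper60

The field of a transitive commutative group of automorphisms.
-/

set_option autoImplicit false
set_option linter.all false

namespace Pool.Agent.L0h60.HS

open Pool.Agent.L0h56.HS

theorem field_of {G : Type} [CommGroup G] (m : G → G → G) (a₀ : G) (h1 : a₀ ≠ 1)
    (hm : ∀ g h k, m g (h * k) = m g h * m g k) (hc : ∀ g h, m g h = m h g)
    (has : ∀ g h k, m (m g h) k = m g (m h k)) (ho : ∀ g, m a₀ g = g)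
    (hi : ∀ g, g ≠ 1 → ∃ h, m g h = a₀) :
    ∃ (F : Type) (_ : Field F) (e : G → F), Function.Bijective e ∧ e 1 = 0 ∧
      (∀ a b, e (a * b) = e a + e b) ∧ ∀ a b, e (m a b) = e a * e b := by
  have hm1 : ∀ g, m g 1 = 1 := by
    intro g
    have h2 := hm g 1 1
    rw [mul_one] at h2
    exact (mul_eq_left.1 h2.symm)
  letI R : CommRing (Additive G) :=
    { (inferInstance : AddCommGroup (Additive G)) with
      mul := fun x y => Additive.ofMul (m x.toMul y.toMul)
      one := Additive.ofMul a₀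
      mul_assoc := fun x y z => congrArg Additive.ofMul (has x.toMul y.toMul z.toMul)
      one_mul := fun x => congrArg Additive.ofMul (ho x.toMul)
      mul_one := fun x => congrArg Additive.ofMul ((hc x.toMul a₀).trans (ho x.toMul))
      left_distrib := fun x y z => congrArg Additive.ofMul (hm x.toMul y.toMul z.toMul)
      right_distrib := fun x y z => congrArg Additive.ofMul (by
        rw [hc (x.toMul * y.toMul), hm, hc x.toMul, hc y.toMul] :
          m (x.toMul * y.toMul) z.toMul = m x.toMul z.toMul * m y.toMul z.toMul)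
      zero_mul := fun x => congrArg Additive.ofMul ((hc 1 x.toMul).trans (hm1 x.toMul))
      mul_zero := fun x => congrArg Additive.ofMul (hm1 x.toMul)
      mul_comm := fun x y => congrArg Additive.ofMul (hc x.toMul y.toMul) }
  have hF : IsField (Additive G) :=
    { exists_pair_ne := ⟨Additive.ofMul 1, Additive.ofMul a₀, fun h => h1 (Additive.ofMul.injective h).symm⟩
      mul_comm := mul_comm
      mul_inv_cancel := by
        intro x hx
        obtain ⟨h, hh⟩ := hi x.toMul (fun h => hx (congrArg Additive.ofMul h))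
        exact ⟨Additive.ofMul h, congrArg Additive.ofMul hh⟩ }
  exact ⟨Additive G, hF.toField, Additive.ofMul, Additive.ofMul.bijective, rfl, fun _ _ => rfl,
    fun _ _ => rfl⟩

theorem t_FLD : S_FLD := by
  intro G _ _ hexp hcard Γ hΓ htr
  haveI : Nontrivial G := Finite.one_lt_card_iff_nontrivial.1 (by omega)
  obtain ⟨a₀, ha₀⟩ := exists_ne (1 : G)
  have hA : ∀ g : G, ∃ α : MulAut G, α ∈ Γ ∧ (g ≠ 1 → α a₀ = g) := by
    intro g
    by_cases hg : g = 1
    · exact ⟨1, Γ.one_mem, fun h => absurd hg h⟩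
    · obtain ⟨α, h1, h2⟩ := htr a₀ g ha₀ hg
      exact ⟨α, h1, fun _ => h2⟩
  choose A hAΓ hA using hA
  have uniq : ∀ α ∈ Γ, ∀ β ∈ Γ, α a₀ = β a₀ → α = β := by
    intro α hα β hβ h
    apply MulEquiv.ext
    intro g
    by_cases hg : g = 1
    · rw [hg, map_one, map_one]
    · have e1 : α g = A g (α a₀) := by
        have h2 := hΓ α hα (A g) (hAΓ g)
        calc α g = α (A g a₀) := by rw [hA g hg]
          _ = (α * A g) a₀ := rfl
          _ = (A g * α) a₀ := by rw [h2]
          _ = A g (α a₀) := rfl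
      have e2 : β g = A g (β a₀) := by
        have h2 := hΓ β hβ (A g) (hAΓ g)
        calc β g = β (A g a₀) := by rw [hA g hg]
          _ = (β * A g) a₀ := rfl
          _ = (A g * β) a₀ := by rw [h2]
          _ = A g (β a₀) := rfl
      rw [e1, e2, h]
  classical
  obtain ⟨m, hm⟩ : ∃ m : G → G → G, m = fun g h => if g = 1 then 1 else A g h := ⟨_, rfl⟩
  have m1 : ∀ h, m 1 h = 1 := by
    intro h
    rw [hm]
    simp
  have mA : ∀ g h, g ≠ 1 → m g h = A g h := by
    intro g h hg
    rw [hm]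
    simp [hg]
  have mr : ∀ g, m g 1 = 1 := by
    intro g
    by_cases hg : g = 1
    · rw [hg, m1]
    · rw [mA g 1 hg, map_one]
  have mne : ∀ g h, g ≠ 1 → h ≠ 1 → m g h ≠ 1 := by
    intro g h hg hh h1
    rw [mA g h hg] at h1
    exact hh ((MulEquiv.map_eq_one_iff (A g)).1 h1)
  have mc : ∀ g h, m g h = m h g := by
    intro g h
    by_cases hg : g = 1
    · rw [hg, m1, mr]
    by_cases hh : h = 1
    · rw [hh, m1, mr]
    rw [mA g h hg, mA h g hh]
    have h2 := hΓ (A g) (hAΓ g) (A h) (hAΓ h)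
    calc A g h = A g (A h a₀) := by rw [hA h hh]
      _ = (A g * A h) a₀ := rfl
      _ = (A h * A g) a₀ := by rw [h2]
      _ = A h (A g a₀) := rfl
      _ = A h g := by rw [hA g hg]
  have mass : ∀ g h k, m (m g h) k = m g (m h k) := by
    intro g h k
    by_cases hg : g = 1
    · rw [hg, m1, m1, m1]
    by_cases hh : h = 1
    · rw [hh, mr, m1, mr]
    have h2 : A (m g h) = A g * A h := by
      refine uniq _ (hAΓ _) _ (Γ.mul_mem (hAΓ g) (hAΓ h)) ?_
      rw [hA _ (mne g h hg hh), mA g h hg]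
      calc A g h = A g (A h a₀) := by rw [hA h hh]
        _ = (A g * A h) a₀ := rfl
    rw [mA _ k (mne g h hg hh), h2, mA g _ hg, mA h k hh]
    rfl
  have A0 : A a₀ = 1 := by
    refine uniq _ (hAΓ _) _ Γ.one_mem ?_
    rw [hA a₀ ha₀]
    rfl
  obtain ⟨F, hF, e, he, he1, hea, hem⟩ := field_of m a₀ ha₀ (by
    intro g h k
    by_cases hg : g = 1
    · rw [hg, m1, m1, m1, mul_one]
    · rw [mA _ _ hg, mA _ _ hg, mA _ _ hg, map_mul]) mc mass (by
    intro g
    rw [mA a₀ g ha₀, A0]
    rfl) (by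
    intro g hg
    refine ⟨(A g)⁻¹ a₀, ?_⟩
    rw [mA g _ hg]
    calc A g ((A g)⁻¹ a₀) = (A g * (A g)⁻¹) a₀ := rfl
      _ = a₀ := by rw [mul_inv_cancel]; rfl)
  have hne : ∀ g : G, g ≠ 1 → e g ≠ 0 := by
    intro g hg h
    rw [← he1] at h
    exact hg (he.1 h)
  have ho : e a₀ = 1 := by
    have h2 := hem a₀ a₀
    rw [mA a₀ a₀ ha₀, A0] at h2
    have h3 : e a₀ * e a₀ = e a₀ * 1 := by
      rw [mul_one]
      exact h2.symm
    exact mul_left_cancel₀ (hne a₀ ha₀) h3
  have h2 : (2 : F) = 0 := by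
    have h3 := hea a₀ a₀
    rw [hexp, he1, ho] at h3
    rw [← one_add_one_eq_two]
    exact h3.symm
  refine ⟨F, hF, Finite.of_surjective e he.2,
    CharTwo.of_one_ne_zero_of_two_eq_zero one_ne_zero h2, e, he, he1, hea, ?_, ?_⟩
  · intro α hα
    have h3 : α a₀ ≠ 1 := fun h => ha₀ ((MulEquiv.map_eq_one_iff α).1 h)
    refine ⟨e (α a₀), hne _ h3, fun a => ?_⟩
    rw [← hem, mA _ a h3, uniq (A (α a₀)) (hAΓ _) α hα (hA _ h3)]
  · intro z hz
    obtain ⟨g, rfl⟩ := he.2 z
    have hg : g ≠ 1 := by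
      rintro rfl
      exact hz he1
    exact ⟨A g, hAΓ g, fun a => by rw [← hem, mA g a hg]⟩

end Pool.Agent.L0h60.HS
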